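import Mathlib

set_option autoImplicit false
set_option linter.unusedSectionVars false

namespace Pool.Agent.V8H69.TX

open Set Filter Topology

theorem cont_of_unif {G X : Type} [TopologicalSpace G] [Group G] [IsTopologicalGroup G]
    [MulAction G X] {ψ : X → ℝ}
    (hu : ∀ ε > 0, ∃ O ∈ 𝓝 (1 : G), ∀ g ∈ O, ∀ x, |ψ (g • x) - ψ x| ≤ ε) (x : X) :
    Continuous fun g : G => ψ (g • x) := by
  rw [continuous_iff_continuousAt]
  intro g₀
  rw [ContinuousAt, Metric.tendsto_nhds]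
  intro ε hε
  obtain ⟨O, hO, h⟩ := hu (ε / 2) (half_pos hε)
  have ht : Tendsto (fun g : G => g * g₀⁻¹) (𝓝 g₀) (𝓝 1) := by
    have : Tendsto (fun g : G => g * g₀⁻¹) (𝓝 g₀) (𝓝 (g₀ * g₀⁻¹)) :=
      (continuous_id.mul continuous_const).tendsto g₀
    rwa [mul_inv_cancel] at this
  filter_upwards [ht hO] with g hg
  have := h _ hg (g₀ • x)
  rw [smul_smul, inv_mul_cancel_right] at this
  rw [Real.dist_eq]
  linarith

/-- T2 (tent functions). -/
theorem exists_tent {G X : Type} [TopologicalSpace G] [Group G] [IsTopologicalGroup G]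
    [MeasurableSpace X] [MulAction G X] {Ψ : ℕ → X → ℝ} (hΨ : ∀ k, Measurable (Ψ k))
    (hu : ∀ k, ∀ ε > 0, ∃ O ∈ 𝓝 (1 : G), ∀ g ∈ O, ∀ x, |Ψ k (g • x) - Ψ k x| ≤ ε)
    (hsep : ∀ x y, (∀ k, Ψ k x = Ψ k y) → x = y) :
    ∃ f : ℕ → X → ℝ, (∀ k, Measurable (f k)) ∧
      (∀ k, ∀ ε > 0, ∃ O ∈ 𝓝 (1 : G), ∀ g ∈ O, ∀ x, |f k (g • x) - f k x| ≤ ε) ∧
      ∀ (x : X) (K : Set G), IsCompact K → (∀ g ∈ K, g • x ≠ x) →
        ∃ k, 3 / 4 ≤ f k x ∧ ∀ g ∈ K, f k (g • x) ≤ 0 := by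
  classical
  obtain ⟨e, he⟩ := exists_surjective_nat (Σ J : ℕ, (Fin J → ℚ) × ℕ)
  let F : (Σ J : ℕ, (Fin J → ℚ) × ℕ) → X → ℝ :=
    fun i x => 1 - (i.2.2 : ℝ) * ∑ j : Fin i.1, |Ψ j x - (i.2.1 j : ℝ)|
  refine ⟨fun k => F (e k), fun k => ?_, fun k ε hε => ?_, fun x K hK hne => ?_⟩
  · refine measurable_const.sub (measurable_const.mul ?_)
    refine Finset.measurable_sum _ fun j _ => ?_
    exact ((hΨ j).sub measurable_const).abs
  · show ∃ O ∈ 𝓝 (1 : G), ∀ g ∈ O, ∀ x, |F (e k) (g • x) - F (e k) x| ≤ ε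
    obtain ⟨J, r, R⟩ := e k
    set δ : ℝ := ε / (R * J + 1) with hδ
    have hpos : (0 : ℝ) < R * J + 1 := by positivity
    have hδ0 : 0 < δ := div_pos hε hpos
    choose O hO hO2 using fun j : Fin J => hu j δ hδ0
    refine ⟨⋂ j, O j, (Filter.iInter_mem).2 hO, fun g hg x => ?_⟩
    have h1 : ∀ j : Fin J, |(|Ψ j (g • x) - (r j : ℝ)| - |Ψ j x - (r j : ℝ)|)| ≤ δ := by
      intro j
      refine (abs_abs_sub_abs_le _ _).trans ?_
      have := hO2 j g (mem_iInter.1 hg j) x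
      simpa using this
    have h2 : F ⟨J, r, R⟩ (g • x) - F ⟨J, r, R⟩ x
        = -((R : ℝ) * ∑ j : Fin J, (|Ψ j (g • x) - (r j : ℝ)| - |Ψ j x - (r j : ℝ)|)) := by
      simp only [F, Finset.sum_sub_distrib]
      ring
    rw [h2, abs_neg, abs_mul, Nat.abs_cast]
    have h3 : |∑ j : Fin J, (|Ψ j (g • x) - (r j : ℝ)| - |Ψ j x - (r j : ℝ)|)| ≤ J * δ := by
      refine (Finset.abs_sum_le_sum_abs _ _).trans ?_
      refine (Finset.sum_le_card_nsmul _ _ δ fun j _ => h1 j).trans ?_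
      simp
    calc (R : ℝ) * |∑ j : Fin J, (|Ψ j (g • x) - (r j : ℝ)| - |Ψ j x - (r j : ℝ)|)|
        ≤ R * (J * δ) := by gcongr
      _ ≤ (R * J + 1) * δ := by nlinarith
      _ = ε := by rw [hδ]; field_simp
  · have hc : ∀ j : ℕ, Continuous fun g : G => Ψ j (g • x) := fun j => cont_of_unif (hu j) x
    let φ : ℕ → G → ℝ := fun J g => ∑ j : Fin J, |Ψ j (g • x) - Ψ j x|
    have hφc : ∀ J, Continuous (φ J) := fun J =>
      continuous_finsetSum _ fun j _ => ((hc j).sub continuous_const).abs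
    have hφm : ∀ g, Monotone fun J => φ J g := by
      intro g
      refine monotone_nat_of_le_succ fun J => ?_
      simp only [φ]
      rw [Fin.sum_univ_castSucc]
      have : 0 ≤ |Ψ (Fin.last J : Fin (J + 1)) (g • x) - Ψ (Fin.last J : Fin (J + 1)) x| :=
        abs_nonneg _
      simp
    have hcov : K ⊆ ⋃ J : ℕ, {g | 1 / ((J : ℝ) + 1) < φ J g} := by
      intro g hg
      have : ∃ j, Ψ j (g • x) ≠ Ψ j x := by
        by_contra hcon
        push Not at hcon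
        exact hne g hg (hsep _ _ hcon)
      obtain ⟨j, hj⟩ := this
      have hd : 0 < |Ψ j (g • x) - Ψ j x| := abs_pos.2 (sub_ne_zero.2 hj)
      obtain ⟨n, hn⟩ := exists_nat_one_div_lt hd
      have h1 : |Ψ j (g • x) - Ψ j x| ≤ φ (j + 1) g := by
        simp only [φ]
        rw [Fin.sum_univ_castSucc]
        have : 0 ≤ ∑ i : Fin j, |Ψ (i.castSucc : Fin (j + 1)) (g • x)
          - Ψ (i.castSucc : Fin (j + 1)) x| := Finset.sum_nonneg fun _ _ => abs_nonneg _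
        simpa using this
      refine mem_iUnion.2 ⟨max n (j + 1), ?_⟩
      have h2 : φ (j + 1) g ≤ φ (max n (j + 1)) g := hφm g (le_max_right _ _)
      have h3 : 1 / (((max n (j + 1) : ℕ) : ℝ) + 1) ≤ 1 / ((n : ℝ) + 1) := by
        apply one_div_le_one_div_of_le (by positivity)
        have : (n : ℝ) ≤ ((max n (j + 1) : ℕ) : ℝ) := by exact_mod_cast le_max_left _ _
        linarith
      show 1 / (((max n (j + 1) : ℕ) : ℝ) + 1) < φ (max n (j + 1)) g
      linarith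
    have hdir : Directed (· ⊆ ·) fun J : ℕ => {g | 1 / ((J : ℝ) + 1) < φ J g} := by
      apply Monotone.directed_le
      intro J J' hJ g hg
      have hg' : 1 / ((J : ℝ) + 1) < φ J g := hg
      have h2 : φ J g ≤ φ J' g := hφm g hJ
      have h3 : 1 / ((J' : ℝ) + 1) ≤ 1 / ((J : ℝ) + 1) := by
        apply one_div_le_one_div_of_le (by positivity)
        have : (J : ℝ) ≤ (J' : ℝ) := by exact_mod_cast hJ
        linarith
      show 1 / ((J' : ℝ) + 1) < φ J' g
      linarith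
    obtain ⟨J, hJ⟩ := hK.elim_directed_cover _
      (fun J => isOpen_lt continuous_const (hφc J)) hcov hdir
    set R : ℕ := 2 * (J + 1) with hR
    have hRr : (R : ℝ) = 2 * ((J : ℝ) + 1) := by rw [hR]; push_cast; ring
    have hRpos : (0 : ℝ) < R := by rw [hRr]; positivity
    set δ : ℝ := 1 / (8 * R * ((J : ℝ) + 1)) with hδ
    have hδ0 : 0 < δ := by rw [hδ]; positivity
    have hr : ∀ j : Fin J, ∃ r : ℚ, |Ψ j x - (r : ℝ)| ≤ δ := by
      intro j
      obtain ⟨r, hr1, hr2⟩ := exists_rat_btwn (show Ψ j x - δ < Ψ j x by linarith)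
      refine ⟨r, ?_⟩
      rw [abs_le]
      constructor <;> linarith
    choose r hr using hr
    obtain ⟨k, hk⟩ := he ⟨J, r, R⟩
    refine ⟨k, ?_⟩
    have hS : ∑ j : Fin J, |Ψ j x - (r j : ℝ)| ≤ 1 / (8 * R) := by
      refine (Finset.sum_le_card_nsmul _ _ δ fun j _ => hr j).trans ?_
      simp only [Finset.card_univ, Fintype.card_fin, nsmul_eq_mul]
      rw [hδ, mul_one_div, div_le_div_iff₀ (by positivity) (by positivity)]
      nlinarith
    have hS2 : (R : ℝ) * ∑ j : Fin J, |Ψ j x - (r j : ℝ)| ≤ 1 / 8 := by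
      calc (R : ℝ) * ∑ j : Fin J, |Ψ j x - (r j : ℝ)| ≤ R * (1 / (8 * R)) := by gcongr
        _ = 1 / 8 := by field_simp
    simp only [hk]
    refine ⟨?_, fun g hg => ?_⟩
    · simp only [F]
      linarith
    · have h1 : 1 / ((J : ℝ) + 1) < φ J g := hJ hg
      have h2 : φ J g ≤ ∑ j : Fin J, |Ψ j (g • x) - (r j : ℝ)|
          + ∑ j : Fin J, |Ψ j x - (r j : ℝ)| := by
        rw [← Finset.sum_add_distrib]
        refine Finset.sum_le_sum fun j _ => ?_
        calc |Ψ j (g • x) - Ψ j x|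
            = |(Ψ j (g • x) - (r j : ℝ)) - (Ψ j x - (r j : ℝ))| := by ring_nf
          _ ≤ _ := abs_sub _ _
      have h3 : (R : ℝ) * (1 / ((J : ℝ) + 1)) = 2 := by
        rw [hRr]; field_simp
      have h4 : (R : ℝ) * (1 / ((J : ℝ) + 1)) ≤ R * (∑ j : Fin J, |Ψ j (g • x) - (r j : ℝ)|
          + ∑ j : Fin J, |Ψ j x - (r j : ℝ)|) := by
        gcongr
        linarith
      simp only [F]
      rw [mul_add] at h4
      linarith

end Pool.Agent.V8H69.TX
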