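import Mathlib

set_option autoImplicit false
set_option linter.unusedSectionVars false

namespace Pool.Agent.V8H69.TX

open Set Filter Topology

/-- T8 (covering). -/
theorem cover {G W X : Type} [TopologicalSpace G] [Group G] [IsTopologicalGroup G]
    [TopologicalSpace W] [Group W] (q : G →* W) [MulAction G X] {f : ℕ → X → ℝ}
    (hf : ∀ (x : X) (K : Set G), IsCompact K → (∀ g ∈ K, g • x ≠ x) →
        ∃ k, 3 / 4 ≤ f k x ∧ ∀ g ∈ K, f k (g • x) ≤ 0) {U C C' U₀ : Set G} (hC' : IsCompact C')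
    (hC'q : C' ⊆ q.ker) (hU₀ : IsOpen U₀) (h1 : (1 : G) ∈ U₀) {P : ℕ → Set G}
    (hPC : ∀ k, ∀ p ∈ P k, ∀ m ∈ C, p⁻¹ * m * p ∈ C')
    (hPU : ∀ k, ∀ p ∈ P k, ∀ u ∈ U₀ ∩ q.ker, p * u * p⁻¹ ∈ U)
    (hfP : ∀ k, ∀ p ∈ P k, ∀ x, |f k (p • x) - f k x| ≤ 1 / 8) (x : X) :
    ∃ k, ∀ p ∈ P k, 1 / 2 ≤ f k (p • x) ∧
      ∀ m ∈ C, f k (m • p • x) ≤ 1 / 4 ∨ ∃ u ∈ U, u • p • x = m • p • x := by
  classical
  set O : Set G := ⋃ s ∈ {s : G | s • x = x ∧ s ∈ q.ker}, (fun m : G => m * s⁻¹) ⁻¹' U₀ with hO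
  have hOo : IsOpen O := by
    refine isOpen_biUnion fun s _ => ?_
    exact hU₀.preimage (continuous_id.mul continuous_const)
  have hK : IsCompact (C' \ O) := hC'.diff hOo
  have hiff : ∀ m ∈ C', m ∈ O → ∃ u ∈ U₀ ∩ (q.ker : Set G), u • x = m • x := by
    intro m hm hmO
    simp only [hO, mem_iUnion, mem_setOf_eq, mem_preimage, exists_prop] at hmO
    obtain ⟨s, ⟨hs, hsk⟩, hu⟩ := hmO
    refine ⟨m * s⁻¹, ⟨hu, ?_⟩, ?_⟩
    · exact mul_mem (hC'q hm) (inv_mem hsk)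
    · rw [mul_smul]
      congr 1
      rw [inv_smul_eq_iff]
      exact hs.symm
  have hne : ∀ g ∈ C' \ O, g • x ≠ x := by
    rintro g ⟨hg, hgO⟩ h
    apply hgO
    simp only [hO, mem_iUnion, mem_setOf_eq, mem_preimage, exists_prop]
    exact ⟨g, ⟨h, hC'q hg⟩, by simpa using h1⟩
  obtain ⟨k, hk1, hk2⟩ := hf x (C' \ O) hK hne
  refine ⟨k, fun p hp => ⟨?_, fun m hm => ?_⟩⟩
  · have := abs_le.mp (hfP k p hp x)
    linarith [this.1]
  · have hm' := hPC k p hp m hm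
    have e : m • p • x = p • (p⁻¹ * m * p) • x := by
      simp only [smul_smul]
      congr 1
      group
    by_cases hmO : p⁻¹ * m * p ∈ O
    · right
      obtain ⟨u, hu, hux⟩ := hiff _ hm' hmO
      refine ⟨p * u * p⁻¹, hPU k p hp u hu, ?_⟩
      rw [e, ← hux]
      simp only [smul_smul]
      congr 1
      group
    · left
      have h0 := hk2 _ ⟨hm', hmO⟩
      have := abs_le.mp (hfP k p hp ((p⁻¹ * m * p) • x))
      rw [e]
      linarith [this.2]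

end Pool.Agent.V8H69.TX
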